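import Pool.Agent.Work.MP_63712b_lc.Main

/-! Negative answer: a Galvin ideal `I` and an analytic (even Borel) subset of `[ω]^ω`
that is not `I⁺`-Ramsey. -/

namespace Pool.Agent.Results.MP_63712b_lc.Counterexample

open Pool.Agent.Work.MP_63712b_lc

theorem result : ∃ I : Set (Set ℕ), IsIdeal I ∧ IsGalvin I ∧
    ∃ A : Set InfSets, MeasureTheory.AnalyticSet A ∧ @MeasurableSet InfSets (borel InfSets) A ∧
      ¬ IsRamsey I A :=
  ⟨idl, isIdeal_idl, isGalvin_idl, setA, analytic_setA, borel_setA, not_isRamsey⟩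

end Pool.Agent.Results.MP_63712b_lc.Counterexample
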